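import Pool.Agent.H49.LM.Avg
import Pool.Agent.W472.AC.RothThm

/-!
# Sums of partial quotients of almost all integer multiples of an algebraic number

Let `ξ` be any real algebraic irrational number and `κ < 1`. For all large `N` and almost all
`m ≤ N` the partial quotients of `m ξ` satisfy the inequality `a_1 + ⋯ + a_n ≤ C n²` of the question,
with one constant `C`, for all `n` for which the denominator `q_(n-1)` of the convergent before `a_n`
is at most `N^κ`.
-/

set_option autoImplicit false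

namespace Pool.Agent.Results.MP_7bb85c_nt.AlmostAllMultiples

open Finset

open Classical in
/-- Let `ξ` be a real algebraic irrational number, `κ < 1` and `η > 0`. There are `C` and `N₀` such
that for every `N ≥ N₀` all but at most `η N` of the integers `1 ≤ m ≤ N` have the property: for all
`n ≥ 1` such that the denominator of the convergent number `n - 1` of `m ξ` is at most `N^κ`, the sum
of the first `n` partial quotients of `m ξ` is at most `C n²`. -/
theorem result (ξ : ℝ) (halg : IsAlgebraic ℚ ξ) (hirr : Irrational ξ) (κ η : ℝ) (hκ : κ < 1)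
    (hη : 0 < η) :
    ∃ (C : ℝ) (N0 : ℕ), ∀ N : ℕ, N0 ≤ N →
      (((Icc 1 N).filter (fun m : ℕ => ¬ ∀ n : ℕ, 1 ≤ n →
        (GenContFract.of ((m : ℝ) * ξ)).dens (n - 1) ≤ (N : ℝ) ^ κ →
        ∑ k ∈ range n, ((GenContFract.of ((m : ℝ) * ξ)).partDens.get? k).getD 0 ≤
          C * (n : ℝ) ^ 2)).card : ℝ) ≤ η * N := by
  have hroth : ∀ τ : ℝ, 0 < τ → ∃ c : ℝ, 0 < c ∧ ∀ q : ℕ, 1 ≤ q → ∀ p : ℤ,
      c ≤ (q : ℝ) ^ (1 + τ) * |q * ξ - p| := fun τ hτ =>
    Pool.Agent.W472.AC.roth ξ halg hirr τ hτ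
  set κ' : ℝ := max κ (1 / 2) with hκ'
  have hκ'1 : κ' < 1 := max_lt hκ (by norm_num)
  have hκ'0 : 0 < κ' := lt_of_lt_of_le (by norm_num) (le_max_right κ (1 / 2))
  obtain ⟨K, C1, hK, hC1, N0, hcore⟩ := Pool.Agent.H49.LM.core ξ hroth κ' η hκ'0 hκ'1 hη
  obtain ⟨C, hC⟩ := Pool.Agent.H49.LM.sum_of_bounds K C1 hK hC1
  refine ⟨C, max N0 1, fun N hN => ?_⟩
  have hN1 : 1 ≤ N := (le_max_right N0 1).trans hN
  have hNR1 : (1 : ℝ) ≤ N := by exact_mod_cast hN1
  refine le_trans ?_ (hcore N ((le_max_left N0 1).trans hN))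
  refine Nat.cast_le.2 (Finset.card_le_card_of_injOn (fun m => m - 1) ?_ ?_)
  · intro m hm
    rw [Finset.mem_coe, mem_filter, mem_Icc] at hm
    obtain ⟨⟨hm1, hmN⟩, hbad⟩ := hm
    rw [Finset.mem_coe, mem_filter, mem_range]
    refine ⟨by show m - 1 < N; omega, ?_⟩
    rintro ⟨h1, h2⟩
    apply hbad
    intro n hn hden
    have e1 : (((m - 1 : ℕ) : ℝ) + 1) * ξ = (m : ℝ) * ξ := by
      rw [Nat.cast_sub hm1, Nat.cast_one]
      ring
    simp only [e1] at h1 h2
    have hmirr : Irrational ((m : ℝ) * ξ) := hirr.natCast_mul (by omega)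
    refine hC ((m : ℝ) * ξ) _ hmirr h1 h2 n hn ?_
    obtain ⟨b, A, B, -, -, hBeq, -⟩ := Pool.Agent.H49.LM.cf_data ((m : ℝ) * ξ) hmirr
    rw [hBeq] at hden ⊢
    have h3 : (B (n - 1) : ℝ) ≤ (N : ℝ) ^ κ' :=
      hden.trans (Real.rpow_le_rpow_of_exponent_le hNR1 (le_max_left _ _))
    exact_mod_cast Nat.le_floor h3
  · intro m hm m' hm' hmm
    rw [Finset.mem_coe, mem_filter, mem_Icc] at hm hm'
    simp only at hmm
    have h1 := hm.1.1
    have h2 := hm'.1.1
    omega

end Pool.Agent.Results.MP_7bb85c_nt.AlmostAllMultiples
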